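import Pool.Agent.Helper32.AG.Goals

/-!
# Project AG (MP_0f21ab_al), packet N2: numbers for two blocks
-/

set_option autoImplicit false

namespace Pool.Agent.Helper50.AG

open Pool.Agent.Helper32.AG

lemma pw1 : ∀ w : ℕ, 4 ≤ w → ((w + 1) * w) ^ 2 ≤ 3 ^ (w + 2) := by
  intro w hw
  induction w, hw using Nat.le_induction with
  | base => norm_num
  | succ w hw ih =>
    have h : (w + 2) ^ 2 ≤ 3 * w ^ 2 := by nlinarith
    calc ((w + 1 + 1) * (w + 1)) ^ 2 = (w + 2) ^ 2 * (w + 1) ^ 2 := by ring
      _ ≤ (3 * w ^ 2) * (w + 1) ^ 2 := Nat.mul_le_mul_right _ h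
      _ = 3 * ((w + 1) * w) ^ 2 := by ring
      _ ≤ 3 * 3 ^ (w + 2) := Nat.mul_le_mul_left _ ih
      _ = 3 ^ (w + 1 + 2) := by ring

lemma pw2 : ∀ n : ℕ, 18 ≤ n → (n ^ 2 * (n ^ 2 + 2)) ^ 2 ≤ 16 * 3 ^ (n + 1) := by
  intro n hn
  induction n, hn using Nat.le_induction with
  | base => norm_num
  | succ n hn ih =>
    have h1 : 8 * (n + 1) ^ 2 ≤ 9 * n ^ 2 := by nlinarith
    have h2 : 8 * ((n + 1) ^ 2 + 2) ≤ 9 * (n ^ 2 + 2) := by omega
    have h3 := Nat.mul_le_mul h1 h2
    have h4 : 64 * ((n + 1) ^ 2 * ((n + 1) ^ 2 + 2)) ≤ 81 * (n ^ 2 * (n ^ 2 + 2)) := by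
      calc 64 * ((n + 1) ^ 2 * ((n + 1) ^ 2 + 2)) =
            8 * (n + 1) ^ 2 * (8 * ((n + 1) ^ 2 + 2)) := by ring
        _ ≤ 9 * n ^ 2 * (9 * (n ^ 2 + 2)) := h3
        _ = _ := by ring
    have h5 : 2 * ((n + 1) ^ 2 * ((n + 1) ^ 2 + 2)) ≤ 3 * (n ^ 2 * (n ^ 2 + 2)) := by omega
    have h6 := Nat.pow_le_pow_left h5 2
    have h7 : 4 * ((n + 1) ^ 2 * ((n + 1) ^ 2 + 2)) ^ 2 ≤ 9 * (n ^ 2 * (n ^ 2 + 2)) ^ 2 := by
      calc 4 * ((n + 1) ^ 2 * ((n + 1) ^ 2 + 2)) ^ 2 =
            (2 * ((n + 1) ^ 2 * ((n + 1) ^ 2 + 2))) ^ 2 := by ring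
        _ ≤ (3 * (n ^ 2 * (n ^ 2 + 2))) ^ 2 := h6
        _ = _ := by ring
    have h8 : 3 ^ (n + 1 + 1) = 3 * 3 ^ (n + 1) := by ring
    rw [h8]
    omega

/-- the arithmetic-geometric mean -/
lemma key {e α kk r w : ℕ} (hk : α + e ^ 2 + 3 * e ≤ 2 * e * kk + 1)
    (hr : w ^ 2 ≤ r * (2 * e * α)) : 2 * w + e ^ 2 + 3 * e ≤ 2 * e * (kk + r) + 1 := by
  have h1 : (2 * w) ^ 2 ≤ (α + 2 * e * r) ^ 2 := by
    have h2 : 4 * (α * (2 * e * r)) ≤ (α + 2 * e * r) ^ 2 := by
      zify
      nlinarith [sq_nonneg ((α : ℤ) - 2 * e * r)]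
    calc (2 * w) ^ 2 = 4 * w ^ 2 := by ring
      _ ≤ 4 * (r * (2 * e * α)) := Nat.mul_le_mul_left _ hr
      _ = 4 * (α * (2 * e * r)) := by ring
      _ ≤ _ := h2
  have h3 : 2 * w ≤ α + 2 * e * r := (Nat.pow_le_pow_iff_left (by norm_num)).1 h1
  have h4 : 2 * e * (kk + r) = 2 * e * kk + 2 * e * r := by ring
  rw [h4]
  omega

lemma fin_case {Q N E : ℕ} (h : Q ≤ 3 ^ N) (hE : N ≤ E) : Q ≤ 3 ^ E :=
  h.trans (Nat.pow_le_pow_right (by norm_num) hE)

/-- **N2.** -/
theorem n2 : N2Stmt := by
  intro p a e α kk c r hp hp2 ha hq he hα hed hpe h9 h25 hk hc hr hcw hrw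
  have hkey := key hk hrw
  obtain ⟨w, hw⟩ : ∃ w, p ^ a = w + 1 := ⟨p ^ a - 1, by omega⟩
  have hw1 : p ^ a - 1 = w := by omega
  rw [hw1] at hkey hcw hrw ⊢
  have hw4 : 4 ≤ w := by omega
  have hE : kk + r ≤ kk + c + r - 1 := by omega
  rcases Nat.lt_or_ge e 2 with he2 | he2
  · -- `e = 1`
    have he1 : e = 1 := by omega
    subst he1
    have h1 : w + 2 ≤ kk + r := by omega
    have h2 := pw1 w hw4
    rw [hw]
    calc (w + 1) ^ 2 * w ^ 2 = ((w + 1) * w) ^ 2 := by ring
      _ ≤ 3 ^ (w + 2) := h2
      _ ≤ _ := Nat.pow_le_pow_right (by norm_num) (h1.trans hE)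
  · rcases Nat.lt_or_ge w 145 with hw5 | hw5
    · -- finitely many cases
      have ha2 : 2 ≤ a := by
        by_contra hcon
        have : a = 1 := by omega
        subst this
        have := Nat.le_of_dvd (by norm_num) hed
        omega
      have hea : e ≤ a ^ 2 := Nat.le_of_dvd (by positivity) hed
      have hp1 : 2 ≤ p := hp.two_le
      have hp12 : p ≤ 12 := by
        by_contra hcon
        have h1 : 13 ≤ p := by omega
        have h2 : p ^ 2 ≤ p ^ a := Nat.pow_le_pow_right (by omega) ha2
        have h3 : 13 ^ 2 ≤ p ^ 2 := Nat.pow_le_pow_left h1 2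
        omega
      have hp3 : 3 ≤ p := by omega
      have ha4 : a ≤ 4 := by
        by_contra hcon
        have h1 : 5 ≤ a := by omega
        have h2 : p ^ 5 ≤ p ^ a := Nat.pow_le_pow_right (by omega) h1
        have h3 : 3 ^ 5 ≤ p ^ 5 := Nat.pow_le_pow_left hp3 5
        omega
      have hpp : p = 3 ∨ p = 5 ∨ p = 7 ∨ p = 11 := by
        interval_cases p <;> first | omega | (exfalso; revert hp; decide)
      have haa : a = 2 ∨ a = 3 ∨ a = 4 := by omega
      rcases hpp with rfl | rfl | rfl | rfl
      · rcases haa with rfl | rfl | rfl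
        · -- 9
          exact absurd ⟨by norm_num, he2⟩ h9
        · -- 27
          exfalso
          have hea' : e ≤ 9 := by omega
          interval_cases e <;> revert hed hpe <;> decide
        · -- 81
          have hw' : w = 80 := by omega
          subst hw'
          have hea' : e ≤ 16 := by omega
          have hee : e = 2 ∨ e = 4 ∨ e = 8 ∨ e = 16 := by
            interval_cases e <;> first | omega | (exfalso; revert hed; decide)
          rcases hee with rfl | rfl | rfl | rfl
          · exact fin_case (N := 16) (by norm_num) (by omega)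
          · exact fin_case (N := 16) (by norm_num) (by omega)
          · exact fin_case (N := 16) (by norm_num) (by omega)
          · refine fin_case (N := 16) (by norm_num) ?_
            rcases Nat.lt_or_ge c 2 with hc2 | hc2
            · have : c = 1 := by omega
              subst this
              have hα5 : α ≤ 5 := by omega
              have h1 : r * (2 * 16 * α) ≤ r * 160 := Nat.mul_le_mul_left _ (by omega)
              omega
            · omega
      · rcases haa with rfl | rfl | rfl
        · -- 25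
          have hw' : w = 24 := by omega
          subst hw'
          have hea' : e ≤ 4 := by omega
          have hee : e = 2 := by
            interval_cases e
            · rfl
            · exfalso; revert hed; decide
            · exact absurd ⟨by norm_num, rfl⟩ h25
          subst hee
          exact fin_case (N := 12) (by norm_num) (by omega)
        · -- 125
          have hw' : w = 124 := by omega
          subst hw'
          have hea' : e ≤ 9 := by omega
          have hee : e = 3 ∨ e = 9 := by
            interval_cases e <;> first | omega | (exfalso; revert hed; decide)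
          rcases hee with rfl | rfl
          · exact fin_case (N := 18) (by norm_num) (by omega)
          · exact fin_case (N := 18) (by norm_num) (by omega)
        · exfalso
          omega
      · rcases haa with rfl | rfl | rfl
        · -- 49
          have hw' : w = 48 := by omega
          subst hw'
          have hea' : e ≤ 4 := by omega
          have hee : e = 2 ∨ e = 4 := by
            interval_cases e <;> first | omega | (exfalso; revert hed; decide)
          rcases hee with rfl | rfl
          · exact fin_case (N := 15) (by norm_num) (by omega)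
          · exact fin_case (N := 15) (by norm_num) (by omega)
        · exfalso; omega
        · exfalso; omega
      · rcases haa with rfl | rfl | rfl
        · -- 121
          have hw' : w = 120 := by omega
          subst hw'
          have hea' : e ≤ 4 := by omega
          have hee : e = 2 ∨ e = 4 := by
            interval_cases e <;> first | omega | (exfalso; revert hed; decide)
          rcases hee with rfl | rfl
          · exact fin_case (N := 18) (by norm_num) (by omega)
          · exact fin_case (N := 18) (by norm_num) (by omega)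
        · exfalso; omega
        · exfalso; omega
    · -- `w ≥ 145`
      obtain ⟨n, hn⟩ : ∃ n, kk + r = n + 1 := ⟨kk + r - 1, by omega⟩
      rw [hn] at hkey hE
      have h1 : 2 * w ≤ n ^ 2 := by
        have h2 : 2 * e * n ≤ n ^ 2 + e ^ 2 := by
          zify
          nlinarith [sq_nonneg ((n : ℤ) - e)]
        have h3 : 2 * e * (n + 1) = 2 * e * n + 2 * e := by ring
        rw [h3] at hkey
        omega
      have h18 : 18 ≤ n := by
        by_contra hcon
        have h2 : n ≤ 17 := by omega
        have h3 := Nat.pow_le_pow_left h2 2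
        omega
      have h4 := pw2 n h18
      have h5 : (2 * w * (2 * w + 2)) ^ 2 ≤ (n ^ 2 * (n ^ 2 + 2)) ^ 2 :=
        Nat.pow_le_pow_left (Nat.mul_le_mul h1 (by omega)) 2
      have h6 : 16 * ((w + 1) ^ 2 * w ^ 2) ≤ 16 * 3 ^ (n + 1) := by
        calc 16 * ((w + 1) ^ 2 * w ^ 2) = (2 * w * (2 * w + 2)) ^ 2 := by ring
          _ ≤ _ := h5.trans h4
      rw [hw]
      have h7 : (w + 1) ^ 2 * w ^ 2 ≤ 3 ^ (n + 1) := by omega
      exact h7.trans (Nat.pow_le_pow_right (by norm_num) hE)

end Pool.Agent.Helper50.AG
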