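import Pool.Agent.Helper71.AG2.Goals
import Pool.Agent.Helper50.AG.N2

/-!
# Project AG+ (MP_0f21ab_al), packet N2: numbers for two blocks
-/

set_option autoImplicit false

namespace Pool.Agent.Helper50.AG

lemma pw5 : ∀ t : ℕ, 16 ≤ t →
    (((2 * t + 1) ^ 2 + 4) * ((2 * t + 1) ^ 2 + 12)) ^ 2 ≤ 4096 * 3 ^ (t + 2) := by
  intro t ht
  induction t, ht using Nat.le_induction with
  | base => norm_num
  | succ t ht ih =>
    have h1 : 5 * ((2 * (t + 1) + 1) ^ 2 + 4) ≤ 6 * ((2 * t + 1) ^ 2 + 4) := by nlinarith
    generalize (2 * (t + 1) + 1) ^ 2 = B' at h1 ⊢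
    generalize (2 * t + 1) ^ 2 = B at h1 ih
    have h2 : 5 * (B' + 12) ≤ 6 * (B + 12) := by omega
    have h3 := Nat.pow_le_pow_left (Nat.mul_le_mul h1 h2) 2
    have h4 : 625 * ((B' + 4) * (B' + 12)) ^ 2 ≤ 1296 * ((B + 4) * (B + 12)) ^ 2 := by
      calc 625 * ((B' + 4) * (B' + 12)) ^ 2 = (5 * (B' + 4) * (5 * (B' + 12))) ^ 2 := by ring
        _ ≤ (6 * (B + 4) * (6 * (B + 12))) ^ 2 := h3
        _ = _ := by ring
    have h5 : 3 ^ (t + 1 + 2) = 3 * 3 ^ (t + 2) := by ring
    rw [h5]
    omega

/-- the arithmetic-geometric mean -/
lemma key2 {e α u r w : ℕ} (hu : α ≤ 2 * e * u + 1)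
    (hr : w ^ 2 ≤ r * (2 * e * α)) : 2 * w ≤ 2 * e * (u + r) + 1 := by
  have h1 : (2 * w) ^ 2 ≤ (α + 2 * e * r) ^ 2 := by
    have h2 : 4 * (α * (2 * e * r)) ≤ (α + 2 * e * r) ^ 2 := by
      zify
      nlinarith [sq_nonneg ((α : ℤ) - 2 * e * r)]
    calc (2 * w) ^ 2 = 4 * w ^ 2 := by ring
      _ ≤ 4 * (r * (2 * e * α)) := Nat.mul_le_mul_left _ hr
      _ = 4 * (α * (2 * e * r)) := by ring
      _ ≤ _ := h2
  have h3 : 2 * w ≤ α + 2 * e * r := (Nat.pow_le_pow_iff_left (by norm_num)).1 h1
  have h4 : 2 * e * (u + r) = 2 * e * u + 2 * e * r := by ring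
  rw [h4]
  omega

/-- bounds for `r` from bounds for `α` -/
lemma rb {r e α w : ℕ} (A R : ℕ) (hrw : w ^ 2 ≤ r * (2 * e * α)) (hα : α ≤ A)
    (hR : R * (2 * e * A) < w ^ 2) : R < r := by
  by_contra hcon
  have h1 : r * (2 * e * α) ≤ R * (2 * e * A) :=
    Nat.mul_le_mul (not_lt.1 hcon) (Nat.mul_le_mul_left _ hα)
  omega

/-- **N2'.** -/
theorem n2p : Helper71.AG2.N2Stmt := by
  intro p a e α u f c r hp hp2 ha hq he hα hed hpe hu hf hc hr hcw hrw
  obtain ⟨w, hw⟩ : ∃ w, p ^ a = w + 1 := ⟨p ^ a - 1, by omega⟩
  have hw1 : p ^ a - 1 = w := by omega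
  rw [hw1] at hcw hrw ⊢
  have hkey := key2 hu hrw
  have hw4 : 4 ≤ w := by omega
  have hE : u + r + f ≤ u + f + c + r - 1 := by omega
  rcases Nat.lt_or_ge e 2 with he2 | he2
  · -- `e = 1`
    have he1 : e = 1 := by omega
    subst he1
    have h1 : w + 2 ≤ u + r + f := by omega
    have h2 := pw1 w hw4
    rw [hw]
    calc (w + 1) ^ 2 * w ^ 2 = ((w + 1) * w) ^ 2 := by ring
      _ ≤ 3 ^ (w + 2) := h2
      _ ≤ _ := Nat.pow_le_pow_right (by norm_num) (h1.trans hE)
  · rcases Nat.lt_or_ge w 121 with hw5 | hw5
    · -- finitely many cases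
      have ha2 : 2 ≤ a := by
        by_contra hcon
        have : a = 1 := by omega
        subst this
        have := Nat.le_of_dvd (by norm_num) hed
        omega
      have hea : e ≤ a ^ 2 := Nat.le_of_dvd (by positivity) hed
      have hp1 : 2 ≤ p := hp.two_le
      have hp12 : p ≤ 11 := by
        by_contra hcon
        have h1 : 12 ≤ p := by omega
        have h2 : p ^ 2 ≤ p ^ a := Nat.pow_le_pow_right (by omega) ha2
        have h3 : 12 ^ 2 ≤ p ^ 2 := Nat.pow_le_pow_left h1 2
        omega
      have hp3 : 3 ≤ p := by omega
      have ha4 : a ≤ 4 := by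
        by_contra hcon
        have h1 : 5 ≤ a := by omega
        have h2 : p ^ 5 ≤ p ^ a := Nat.pow_le_pow_right (by omega) h1
        have h3 : 3 ^ 5 ≤ p ^ 5 := Nat.pow_le_pow_left hp3 5
        omega
      have hpp : p = 3 ∨ p = 5 ∨ p = 7 ∨ p = 11 := by
        interval_cases p <;> first | omega | (exfalso; revert hp; decide)
      have haa : a = 2 ∨ a = 3 ∨ a = 4 := by omega
      rcases hpp with rfl | rfl | rfl | rfl
      · rcases haa with rfl | rfl | rfl
        · -- 9
          have hw' : w = 8 := by omega
          subst hw'
          have hea' : e ≤ 4 := by omega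
          have hee : e = 2 ∨ e = 4 := by
            interval_cases e <;> first | omega | (exfalso; revert hed; decide)
          refine fin_case (N := 8) (by norm_num) ?_
          rcases hee with rfl | rfl
          · rcases Nat.lt_or_ge c 2 with hc2 | hc2
            · have hc1 : c = 1 := by omega
              subst hc1
              have hα4 : α ≤ 4 := by omega
              interval_cases α <;> omega
            · omega
          · rcases Nat.lt_or_ge c 3 with hc2 | hc2
            · interval_cases c
              · have hα4 : α ≤ 2 := by omega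
                interval_cases α <;> omega
              · have hα4 : α ≤ 6 := by omega
                interval_cases α <;> omega
            · omega
        · -- 27
          exfalso
          have hea' : e ≤ 9 := by omega
          interval_cases e <;> revert hed hpe <;> decide
        · -- 81
          have hw' : w = 80 := by omega
          subst hw'
          have hea' : e ≤ 16 := by omega
          have hee : e = 2 ∨ e = 4 ∨ e = 8 ∨ e = 16 := by
            interval_cases e <;> first | omega | (exfalso; revert hed; decide)
          rcases hee with rfl | rfl | rfl | rfl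
          · exact fin_case (N := 16) (by norm_num) (by omega)
          · exact fin_case (N := 16) (by norm_num) (by omega)
          · exact fin_case (N := 16) (by norm_num) (by omega)
          · refine fin_case (N := 16) (by norm_num) ?_
            rcases Nat.lt_or_ge c 2 with hc2 | hc2
            · have hc1 : c = 1 := by omega
              subst hc1
              have hα5 : α ≤ 5 := by omega
              have := rb 5 39 hrw hα5 (by norm_num)
              omega
            · omega
      · rcases haa with rfl | rfl | rfl
        · -- 25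
          have hw' : w = 24 := by omega
          subst hw'
          have hea' : e ≤ 4 := by omega
          have hee : e = 2 ∨ e = 4 := by
            interval_cases e <;> first | omega | (exfalso; revert hed; decide)
          refine fin_case (N := 12) (by norm_num) ?_
          rcases hee with rfl | rfl
          · omega
          · rcases Nat.lt_or_ge c 3 with hc2 | hc2
            · interval_cases c
              · have hα4 : α ≤ 6 := by omega
                have := rb 6 11 hrw hα4 (by norm_num)
                omega
              · have hα4 : α ≤ 18 := by omega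
                rcases Nat.lt_or_ge α 18 with h18 | h18
                · have := rb 17 4 hrw (by omega) (by norm_num)
                  rcases Nat.lt_or_ge α 10 with h10 | h10
                  · have := rb 9 7 hrw (by omega) (by norm_num)
                    omega
                  · omega
                · have := rb 18 3 hrw hα4 (by norm_num)
                  omega
            · omega
        · exfalso; omega
        · exfalso; omega
      · rcases haa with rfl | rfl | rfl
        · -- 49
          have hw' : w = 48 := by omega
          subst hw'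
          have hea' : e ≤ 4 := by omega
          have hee : e = 2 ∨ e = 4 := by
            interval_cases e <;> first | omega | (exfalso; revert hed; decide)
          rcases hee with rfl | rfl
          · exact fin_case (N := 15) (by norm_num) (by omega)
          · exact fin_case (N := 15) (by norm_num) (by omega)
        · exfalso; omega
        · exfalso; omega
      · rcases haa with rfl | rfl | rfl
        · -- 121
          have hw' : w = 120 := by omega
          subst hw'
          have hea' : e ≤ 4 := by omega
          have hee : e = 2 ∨ e = 4 := by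
            interval_cases e <;> first | omega | (exfalso; revert hed; decide)
          rcases hee with rfl | rfl
          · exact fin_case (N := 18) (by norm_num) (by omega)
          · exact fin_case (N := 18) (by norm_num) (by omega)
        · exfalso; omega
        · exfalso; omega
    · -- `w ≥ 121`
      have h0 : 2 * w + e ^ 2 + 3 * e ≤ 2 * e * (u + r + f) + 1 := by
        have h1 : e * (e + 3) ≤ e * (2 * f) := Nat.mul_le_mul_left _ hf
        have h2 : 2 * e * (u + r + f) = 2 * e * (u + r) + e * (2 * f) := by ring
        have h3 : e * (e + 3) = e ^ 2 + 3 * e := by ring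
        rw [h2]
        omega
      obtain ⟨t, ht⟩ : ∃ t, u + r + f = t + 2 := ⟨u + r + f - 2, by omega⟩
      rw [ht] at h0 hE
      have h1 : e ^ 2 + 2 * w ≤ e * (2 * t + 1) + 1 := by
        have h2 : 2 * e * (t + 2) = e * (2 * t + 1) + 3 * e := by ring
        omega
      have h2 : 8 * w ≤ (2 * t + 1) ^ 2 + 4 := by
        have h3 : 4 * (e * (2 * t + 1)) ≤ (2 * t + 1) ^ 2 + 4 * e ^ 2 := by
          zify
          nlinarith [sq_nonneg ((2 * t + 1 : ℤ) - 2 * e)]
        omega
      have h16 : 16 ≤ t := by
        by_contra hcon
        have h3 : 2 * t + 1 ≤ 31 := by omega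
        have h4 := Nat.pow_le_pow_left h3 2
        omega
      have h4 := pw5 t h16
      have h5 : (8 * w * (8 * w + 8)) ^ 2 ≤
          (((2 * t + 1) ^ 2 + 4) * ((2 * t + 1) ^ 2 + 12)) ^ 2 :=
        Nat.pow_le_pow_left (Nat.mul_le_mul h2 (by omega)) 2
      have h6 : 4096 * ((w + 1) ^ 2 * w ^ 2) ≤ 4096 * 3 ^ (t + 2) := by
        calc 4096 * ((w + 1) ^ 2 * w ^ 2) = (8 * w * (8 * w + 8)) ^ 2 := by ring
          _ ≤ _ := h5.trans h4
      rw [hw]
      have h7 : (w + 1) ^ 2 * w ^ 2 ≤ 3 ^ (t + 2) := by omega
      exact h7.trans (Nat.pow_le_pow_right (by norm_num) hE)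

end Pool.Agent.Helper50.AG
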