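import Pool.Agent.Helper32.AG.Goals

/-!
# Project AG (MP_0f21ab_al), packet N3: numbers for one block
-/

set_option autoImplicit false

namespace Pool.Agent.Helper50.AG

open Pool.Agent.Helper32.AG

lemma pw3 : ∀ n : ℕ, 11 ≤ n →
    ((n + 1) ^ 2 + 4) ^ 2 * (((n + 1) ^ 2 + 4) ^ 2 + 64) ≤ 4096 * 3 ^ n := by
  intro n hn
  induction n, hn using Nat.le_induction with
  | base => norm_num
  | succ n hn ih =>
    have h1 : 5 * ((n + 1 + 1) ^ 2 + 4) ≤ 6 * ((n + 1) ^ 2 + 4) := by nlinarith
    have h2 := Nat.pow_le_pow_left h1 2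
    have h3 : 25 * ((n + 1 + 1) ^ 2 + 4) ^ 2 ≤ 36 * ((n + 1) ^ 2 + 4) ^ 2 := by
      calc 25 * ((n + 1 + 1) ^ 2 + 4) ^ 2 = (5 * ((n + 1 + 1) ^ 2 + 4)) ^ 2 := by ring
        _ ≤ (6 * ((n + 1) ^ 2 + 4)) ^ 2 := h2
        _ = _ := by ring
    generalize ((n + 1 + 1) ^ 2 + 4) ^ 2 = B' at h3 ⊢
    generalize ((n + 1) ^ 2 + 4) ^ 2 = B at h3 ih
    have h4 : 25 * (B' + 64) ≤ 36 * (B + 64) := by omega
    have h5 := Nat.mul_le_mul h3 h4
    have h6 : 625 * (B' * (B' + 64)) ≤ 1296 * (B * (B + 64)) := by
      calc 625 * (B' * (B' + 64)) = 25 * B' * (25 * (B' + 64)) := by ring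
        _ ≤ 36 * B * (36 * (B + 64)) := h5
        _ = _ := by ring
    have h7 : 3 ^ (n + 1) = 3 * 3 ^ n := by ring
    rw [h7]
    omega

lemma pw4 : ∀ j : ℕ, 3 ≤ j → (j + 1) ^ 2 * ((j + 1) ^ 2 + 4) ≤ 16 * 3 ^ j := by
  intro j hj
  induction j, hj using Nat.le_induction with
  | base => norm_num
  | succ j hj ih =>
    have h1 : 8 * (j + 1 + 1) ^ 2 ≤ 13 * (j + 1) ^ 2 := by nlinarith
    generalize (j + 1 + 1) ^ 2 = B' at h1 ⊢
    generalize (j + 1) ^ 2 = B at h1 ih
    have h4 : 8 * (B' + 4) ≤ 13 * (B + 4) := by omega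
    have h5 := Nat.mul_le_mul h1 h4
    have h6 : 64 * (B' * (B' + 4)) ≤ 169 * (B * (B + 4)) := by
      calc 64 * (B' * (B' + 4)) = 8 * B' * (8 * (B' + 4)) := by ring
        _ ≤ 13 * B * (13 * (B + 4)) := h5
        _ = _ := by ring
    have h7 : 3 ^ (j + 1) = 3 * 3 ^ j := by ring
    rw [h7]
    omega

lemma fin_case3 {Q N E : ℕ} (h : Q ≤ 3 ^ N) (hE : N ≤ E) : Q ≤ 3 ^ E :=
  h.trans (Nat.pow_le_pow_right (by norm_num) hE)

/-- **N3.** -/
theorem n3 : N3Stmt := by
  intro p a d h kk r hp ha hq hd hh hda hpd hhw hnot hk hr hrw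
  obtain ⟨w, hw⟩ : ∃ w, p ^ a = w + 1 := ⟨p ^ a - 1, by omega⟩
  have hw1 : p ^ a - 1 = w := by omega
  rw [hw1] at hhw hrw ⊢
  have hw3 : 3 ≤ w := by omega
  -- the arithmetic-geometric mean
  obtain ⟨X, hX⟩ : ∃ X, h + d * r = X := ⟨_, rfl⟩
  have hX4 : 4 * w ≤ X ^ 2 := by
    have h1 : 4 * (h * (d * r)) ≤ (h + d * r) ^ 2 := by
      zify
      nlinarith [sq_nonneg ((h : ℤ) - d * r)]
    rw [hX] at h1
    calc 4 * w ≤ 4 * (r * (h * d)) := Nat.mul_le_mul_left _ hrw
      _ = 4 * (h * (d * r)) := by ring
      _ ≤ _ := h1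
  have hkey : d ^ 2 + X ≤ d * (kk + r) + 1 := by
    have h1 : d * (kk + r) = d * kk + d * r := by ring
    have h2 : d ^ 2 = d * d := by ring
    rw [h1, h2]
    omega
  have hX0 : ∀ M : ℕ, M ^ 2 < 4 * w → M < X := fun M hM => by
    by_contra hcon
    have := Nat.pow_le_pow_left (not_lt.1 hcon) 2
    omega
  obtain ⟨n, hn⟩ : ∃ n, kk + r = n + 1 := ⟨kk + r - 1, by omega⟩
  have hn1 : kk + r - 1 = n := by omega
  rw [hn1]
  rw [hn] at hkey
  rcases Nat.lt_or_ge d 2 with hd2 | hd2
  · -- `d = 1`
    have hd1 : d = 1 := by omega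
    subst hd1
    have h1 : X ≤ n + 1 := by omega
    have h2 : 4 * w ≤ (n + 1) ^ 2 := hX4.trans (Nat.pow_le_pow_left h1 2)
    have h3 : 3 ≤ n := by
      by_contra hcon
      have h4 : n + 1 ≤ 3 := by omega
      have h5 := Nat.pow_le_pow_left h4 2
      omega
    have h4 := pw4 n h3
    have h5 : 16 * ((w + 1) * w) ≤ 16 * 3 ^ n := by
      calc 16 * ((w + 1) * w) = 4 * w * (4 * w + 4) := by ring
        _ ≤ (n + 1) ^ 2 * ((n + 1) ^ 2 + 4) := Nat.mul_le_mul h2 (by omega)
        _ ≤ _ := h4
    rw [hw]
    omega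
  · rcases Nat.lt_or_ge w 245 with hw5 | hw5
    · -- finitely many cases
      have hdla : d ≤ a := Nat.le_of_dvd ha hda
      have ha2 : 2 ≤ a := hd2.trans hdla
      have hp1 : 2 ≤ p := hp.two_le
      have hp15 : p ≤ 15 := by
        by_contra hcon
        have h1 : 16 ≤ p := by omega
        have h2 : p ^ 2 ≤ p ^ a := Nat.pow_le_pow_right (by omega) ha2
        have h3 : 16 ^ 2 ≤ p ^ 2 := Nat.pow_le_pow_left h1 2
        omega
      have ha7 : a ≤ 7 := by
        by_contra hcon
        have h1 : 8 ≤ a := by omega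
        have h2 : p ^ 8 ≤ p ^ a := Nat.pow_le_pow_right (by omega) h1
        have h3 : 2 ^ 8 ≤ p ^ 8 := Nat.pow_le_pow_left hp1 8
        omega
      have hpp : p = 2 ∨ p = 3 ∨ p = 5 ∨ p = 7 ∨ p = 11 ∨ p = 13 := by
        interval_cases p <;> first | omega | (exfalso; revert hp; decide)
      rcases hpp with rfl | rfl | rfl | rfl | rfl | rfl
      · -- `p = 2`
        have hcs : (a = 3 ∧ d = 3) ∨ (a = 5 ∧ d = 5) ∨ (a = 6 ∧ d = 3) ∨ (a = 7 ∧ d = 7) := by
          interval_cases a <;> interval_cases d <;>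
            first | omega | (exfalso; revert hda hpd; decide)
        rcases hcs with ⟨rfl, rfl⟩ | ⟨rfl, rfl⟩ | ⟨rfl, rfl⟩ | ⟨rfl, rfl⟩
        · have hw' : w = 7 := by omega
          subst hw'
          have := hX0 5 (by norm_num)
          exact fin_case3 (N := 4) (by norm_num) (by omega)
        · have hw' : w = 31 := by omega
          subst hw'
          have := hX0 11 (by norm_num)
          exact fin_case3 (N := 7) (by norm_num) (by omega)
        · have hw' : w = 63 := by omega
          subst hw'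
          have h1 := hnot 2 (by norm_num) (by norm_num)
          have h2 := hnot 3 (by norm_num) (by norm_num)
          have hh63 : h ≤ 63 := Nat.le_of_dvd (by norm_num) hhw
          refine fin_case3 (N := 8) (by norm_num) ?_
          have hh9 : h = 9 ∨ 21 ≤ h := by
            rcases Nat.lt_or_ge h 21 with h21 | h21
            · left
              interval_cases h <;> first | rfl | (exfalso; revert hhw h1 h2; decide)
            · right; exact h21
          rcases hh9 with rfl | h21
          · omega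
          · omega
        · have hw' : w = 127 := by omega
          subst hw'
          have := hX0 22 (by norm_num)
          exact fin_case3 (N := 10) (by norm_num) (by omega)
      · -- `p = 3`
        have ha5 : a ≤ 5 := by
          by_contra hcon
          have h1 : 6 ≤ a := by omega
          have h2 : 3 ^ 6 ≤ 3 ^ a := Nat.pow_le_pow_right (by omega) h1
          omega
        have hcs : (a = 2 ∧ d = 2) ∨ (a = 4 ∧ d = 2) ∨ (a = 4 ∧ d = 4) ∨ (a = 5 ∧ d = 5) := by
          interval_cases a <;> interval_cases d <;>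
            first | omega | (exfalso; revert hda hpd; decide)
        rcases hcs with ⟨rfl, rfl⟩ | ⟨rfl, rfl⟩ | ⟨rfl, rfl⟩ | ⟨rfl, rfl⟩
        · have hw' : w = 8 := by omega
          subst hw'
          have := hX0 5 (by norm_num)
          exact fin_case3 (N := 4) (by norm_num) (by omega)
        · have hw' : w = 80 := by omega
          subst hw'
          have := hX0 17 (by norm_num)
          exact fin_case3 (N := 8) (by norm_num) (by omega)
        · have hw' : w = 80 := by omega
          subst hw'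
          have := hX0 17 (by norm_num)
          exact fin_case3 (N := 8) (by norm_num) (by omega)
        · have hw' : w = 242 := by omega
          subst hw'
          have := hX0 31 (by norm_num)
          exact fin_case3 (N := 11) (by norm_num) (by omega)
      · -- `p = 5`
        have ha3 : a ≤ 3 := by
          by_contra hcon
          have h1 : 4 ≤ a := by omega
          have h2 : 5 ^ 4 ≤ 5 ^ a := Nat.pow_le_pow_right (by omega) h1
          omega
        have hcs : (a = 2 ∧ d = 2) ∨ (a = 3 ∧ d = 3) := by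
          interval_cases a <;> interval_cases d <;>
            first | omega | (exfalso; revert hda hpd; decide)
        rcases hcs with ⟨rfl, rfl⟩ | ⟨rfl, rfl⟩
        · have hw' : w = 24 := by omega
          subst hw'
          have := hX0 9 (by norm_num)
          exact fin_case3 (N := 6) (by norm_num) (by omega)
        · have hw' : w = 124 := by omega
          subst hw'
          have := hX0 22 (by norm_num)
          exact fin_case3 (N := 10) (by norm_num) (by omega)
      all_goals
        have ha3 : a = 2 := by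
          by_contra hcon
          have h1 : 3 ≤ a := by omega
          first
            | (have h2 : 7 ^ 3 ≤ 7 ^ a := Nat.pow_le_pow_right (by omega) h1
               omega)
            | (have h2 : 11 ^ 3 ≤ 11 ^ a := Nat.pow_le_pow_right (by omega) h1
               omega)
            | (have h2 : 13 ^ 3 ≤ 13 ^ a := Nat.pow_le_pow_right (by omega) h1
               omega)
        subst ha3
        have hd' : d = 2 := by omega
        subst hd'
      · have hw' : w = 48 := by omega
        subst hw'
        have := hX0 13 (by norm_num)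
        exact fin_case3 (N := 8) (by norm_num) (by omega)
      · have hw' : w = 120 := by omega
        subst hw'
        have := hX0 21 (by norm_num)
        exact fin_case3 (N := 10) (by norm_num) (by omega)
      · have hw' : w = 168 := by omega
        subst hw'
        have := hX0 25 (by norm_num)
        exact fin_case3 (N := 10) (by norm_num) (by omega)
    · -- `w ≥ 245`
      have h1 : 4 * (d * (n + 1)) ≤ (n + 1) ^ 2 + 4 * d ^ 2 := by
        zify
        nlinarith [sq_nonneg ((n : ℤ) + 1 - 2 * d)]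
      have h2 : 4 * X ≤ (n + 1) ^ 2 + 4 := by omega
      have h3 := Nat.pow_le_pow_left h2 2
      have h4 : 64 * w ≤ ((n + 1) ^ 2 + 4) ^ 2 := by
        have h5 : (4 * X) ^ 2 = 16 * X ^ 2 := by ring
        omega
      have h11 : 11 ≤ n := by
        by_contra hcon
        have h5 : n + 1 ≤ 11 := by omega
        have h6 := Nat.pow_le_pow_left h5 2
        have h7 : (n + 1) ^ 2 + 4 ≤ 125 := by omega
        have h8 := Nat.pow_le_pow_left h7 2
        omega
      have h5 := pw3 n h11
      have h6 : 4096 * ((w + 1) * w) ≤ 4096 * 3 ^ n := by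
        calc 4096 * ((w + 1) * w) = 64 * w * (64 * w + 64) := by ring
          _ ≤ ((n + 1) ^ 2 + 4) ^ 2 * (((n + 1) ^ 2 + 4) ^ 2 + 64) :=
              Nat.mul_le_mul h4 (by omega)
          _ ≤ _ := h5
      rw [hw]
      omega

end Pool.Agent.Helper50.AG
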